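import Mathlib

set_option autoImplicit false

namespace Pool.Agent.Results.MP_b76267_pr.Counter

open MeasureTheory Real Set Filter Topology
open scoped ContDiff ENNReal NNReal

abbrev E := EuclideanSpace ℝ (Fin 4)

/-- periodicity, off the boundary -/
def Periodic (Ω : Set E) : Prop :=
  ∀ x ∉ frontier Ω, (∀ i, x - EuclideanSpace.single i 1 ∈ Ω ↔ x ∉ Ω) ∧ (-x ∈ Ω ↔ x ∉ Ω)

/-- the boundary is a regular level set of a smooth function -/
def SmoothBoundary (Ω : Set E) : Prop :=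
  ∃ f : E → ℝ, ContDiff ℝ ∞ f ∧ frontier Ω = {x | f x = 0} ∧ ∀ x, f x = 0 → fderiv ℝ f x ≠ 0

/-- Gaussian surface area -/
noncomputable def area (Ω : Set E) : ℝ≥0∞ :=
  ∫⁻ x in frontier Ω, ENNReal.ofReal ((2 * π) ^ (-(4 : ℝ) / 2) * exp (-‖x‖ ^ 2 / 2)) ∂μHE[3]

abbrev F := EuclideanSpace ℝ (Fin 3)

noncomputable def h (τ : ℝ) (x : E) : ℝ := ∑ i, x i - 4 * τ * sin (2 * π * x 0)

def Om (τ : ℝ) : Set E := {x | 0 ≤ sin (π * h τ x)}

lemma h_smooth (τ : ℝ) : ContDiff ℝ ∞ (h τ) := by unfold h; fun_prop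

lemma h_line (τ ε : ℝ) (x : E) : h τ (x + ε • EuclideanSpace.single 1 1) = h τ x + ε := by
  simp [h, Fin.sum_univ_four]; ring

lemma front (τ : ℝ) : frontier (Om τ) = {x | sin (π * h τ x) = 0} := by
  have hc := (h_smooth τ).continuous
  have hc' : Continuous fun x => sin (π * h τ x) := by fun_prop
  refine Subset.antisymm (fun x hx => (frontier_le_subset_eq continuous_const hc' hx).symm) ?_
  intro x hx
  refine ⟨subset_closure (le_of_eq (Eq.symm hx)), fun hi => ?_⟩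
  have t : Tendsto (fun ε : ℝ => x + ε • (EuclideanSpace.single 1 1 : E)) (𝓝 0) (𝓝 x) :=
    Continuous.tendsto' (by fun_prop) _ _ (by simp)
  have e1 := t.eventually (mem_interior_iff_mem_nhds.1 hi)
  have e2 := (show Tendsto (fun ε : ℝ => -ε) (𝓝 0) (𝓝 0) from
    Continuous.tendsto' (by fun_prop) _ _ (by simp)).eventually e1
  obtain ⟨ε, ⟨⟨h1, h2⟩, h3⟩, h4⟩ := ((((e1.and e2).and
    (eventually_lt_nhds zero_lt_one)).filter_mono nhdsWithin_le_nhds).and
    (self_mem_nhdsWithin (s := Ioi 0))).exists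
  have h5 : 0 < sin (π * ε) := sin_pos_of_pos_of_lt_pi (mul_pos pi_pos h4) (by nlinarith [pi_pos])
  simp only [mem_ofPred, h_line, mul_add, mul_neg, sin_add, sin_neg, cos_neg] at h1 h2 hx
  have := sin_sq_add_cos_sq (π * h τ x)
  rw [hx] at h1 h2 this
  have h6 : cos (π * h τ x) = 0 := by
    have : cos (π * h τ x) * sin (π * ε) = 0 := by linarith
    simpa [h5.ne'] using this
  simp [h6] at this

lemma smooth (τ : ℝ) : SmoothBoundary (Om τ) := by
  have hs := h_smooth τ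
  refine ⟨fun x => sin (π * h τ x), by fun_prop, front τ, fun x hx h0 => ?_⟩
  have h1 : HasFDerivAt (fun x => sin (π * h τ x)) (0 : E →L[ℝ] ℝ)
      (x + (0 : ℝ) • EuclideanSpace.single 1 1) := by
    rw [← h0, zero_smul, add_zero]
    exact ((by fun_prop : ContDiff ℝ ∞ fun x => sin (π * h τ x)).differentiable (by simp) x).hasFDerivAt
  have h2 := h1.comp_hasDerivAt (0 : ℝ)
    (((hasDerivAt_id (0 : ℝ)).smul_const (EuclideanSpace.single 1 1 : E)).const_add x)
  have h3 : HasDerivAt (fun ε : ℝ => sin (π * (h τ x + ε))) (cos (π * (h τ x + 0)) * (π * 1)) 0 :=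
    (((hasDerivAt_id (0 : ℝ)).const_add _).const_mul π).sin
  have h4 := h3.unique (by simpa [Function.comp_def, h_line] using h2)
  have := sin_sq_add_cos_sq (π * h τ x)
  simp only [add_zero, mul_one, mul_eq_zero, pi_ne_zero, or_false] at h4
  simp only at hx
  simp [hx, h4] at this

lemma per (τ : ℝ) : Periodic (Om τ) := by
  intro x hx
  rw [front] at hx
  have k : ∀ y : E, sin (π * h τ y) = -sin (π * h τ x) → (y ∈ Om τ ↔ x ∉ Om τ) := fun y hy => by
    simp only [Om, mem_ofPred, hy, not_le, neg_nonneg]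
    exact ⟨fun h => lt_of_le_of_ne h hx, le_of_lt⟩
  refine ⟨fun i => k _ ?_, k _ ?_⟩
  · have : h τ (x - EuclideanSpace.single i 1) = h τ x - 1 := by
      fin_cases i <;> simp [h, Fin.sum_univ_four, mul_sub] <;> ring
    rw [this, mul_sub, mul_one, sin_sub_pi]
  · have : h τ (-x) = -h τ x := by simp [h]; ring
    rw [this, mul_neg, sin_neg]

noncomputable def p (x : E) : F :=
  !₂[(x 0 + x 1 - x 2 - x 3) / 2, (x 0 - x 1 + x 2 - x 3) / 2, (x 0 - x 1 - x 2 + x 3) / 2]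

lemma p_cont : Continuous p := by unfold p; fun_prop

lemma pyth (x : E) : ‖x‖ ^ 2 = ‖p x‖ ^ 2 + (∑ i, x i) ^ 2 / 4 := by
  simp [EuclideanSpace.real_norm_sq_eq, Fin.sum_univ_four, Fin.sum_univ_three, p]; ring

lemma p_sub (x y : E) : p (x - y) = p x - p y := by
  ext i; fin_cases i <;> simp [p] <;> ring

lemma map_le (A : Set E) (K : ℝ≥0)
    (hK : ∀ x ∈ A, ∀ y ∈ A, ‖x - y‖ ≤ K * ‖p x - p y‖) :
    ((μHE[3] : Measure E).restrict A).map p ≤ ((K : ℝ≥0∞) ^ 3) • volume := by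
  refine Measure.le_iff.2 fun S hS => ?_
  rw [Measure.map_apply p_cont.measurable hS, Measure.restrict_apply (p_cont.measurable hS)]
  have a : AntilipschitzWith K fun x : A => p x :=
    .of_le_mul_dist fun x y => by simpa [Subtype.dist_eq, dist_eq_norm] using hK x x.2 y y.2
  have b := a.le_hausdorffMeasure_image (d := (3 : ℕ)) (by simp) {x | p x ∈ S}
  rw [← isometry_subtype_coe.hausdorffMeasure_image (Or.inl (by simp))] at b
  rw [← EuclideanSpace.euclideanHausdorffMeasure_eq_volume]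
  simp only [Measure.euclideanHausdorffMeasure_def, Measure.smul_apply, smul_eq_mul,
    ENNReal.smul_def]
  rw [mul_left_comm]
  gcongr
  refine (measure_mono ?_).trans (b.trans ?_)
  · exact fun x hx => ⟨⟨x, hx.2⟩, hx.1, rfl⟩
  · rw [ENNReal.rpow_natCast]
    gcongr
    rintro _ ⟨x, hx, rfl⟩; exact hx

lemma le_map (k : ℝ) : volume ≤ ((μHE[3] : Measure E).restrict {x | h 0 x = k}).map p := by
  refine Measure.le_iff.2 fun S hS => ?_
  rw [Measure.map_apply p_cont.measurable hS, Measure.restrict_apply (p_cont.measurable hS)]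
  have a : LipschitzWith 1 p := .of_dist_le_mul fun x y => by
    rw [dist_eq_norm, dist_eq_norm, ← p_sub, NNReal.coe_one, one_mul]
    refine abs_le_of_sq_le_sq' ?_ (norm_nonneg _) |>.2
    rw [pyth]; nlinarith [sq_nonneg (∑ i, (x - y) i)]
  have b := a.hausdorffMeasure_image_le (d := (3 : ℕ)) (by simp) (p ⁻¹' S ∩ {x | h 0 x = k})
  rw [← EuclideanSpace.euclideanHausdorffMeasure_eq_volume]
  simp only [Measure.euclideanHausdorffMeasure_def, Measure.smul_apply, smul_eq_mul,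
    ENNReal.smul_def]
  gcongr
  refine (measure_mono fun y hy => ?_).trans (b.trans (by simp))
  have e : p !₂[k / 4 + (y 0 + y 1 + y 2) / 2, k / 4 + (y 0 - y 1 - y 2) / 2,
      k / 4 + (-y 0 + y 1 - y 2) / 2, k / 4 + (-y 0 - y 1 + y 2) / 2] = y := by
    ext i; fin_cases i <;> simp [p] <;> ring
  refine ⟨_, ⟨by rwa [mem_preimage, e], ?_⟩, e⟩
  simp [h, Fin.sum_univ_four]; ring

lemma exp_le (a : ℝ) : exp a ≤ 1 + a + a ^ 2 * exp |a| := by
  have h1 : exp a ≤ 1 + a * exp a := by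
    have := mul_le_mul_of_nonneg_left (add_one_le_exp (-a)) (exp_pos a).le
    rw [← exp_add, add_neg_cancel, exp_zero] at this
    linarith
  rcases le_total 0 a with h | h
  · rw [abs_of_nonneg h]; nlinarith [mul_le_mul_of_nonneg_left h1 h]
  · nlinarith [mul_le_mul_of_nonpos_left (add_one_le_exp a) h,
      mul_le_mul_of_nonneg_left (one_le_exp (abs_nonneg a)) (sq_nonneg a)]

noncomputable def g (y : F) : ℝ := exp (-‖y‖ ^ 2 / 2)
noncomputable def σ (k : ℝ) (y : F) : ℝ := sin (π * k / 2 + π * (y 0 + y 1 + y 2))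
noncomputable def M : ℝ := (2 * π) ^ (3 / 2 : ℝ)

lemma gauss (c : ℝ) (k : ℝ) : Integrable (fun y : F => g y * sin (k + c * (y 0 + y 1 + y 2))) ∧
    ∫ y : F, g y * sin (k + c * (y 0 + y 1 + y 2)) =
      sin k * (M * exp (-(3 * c ^ 2 / 2))) := by
  have e : ∀ y : F, g y * sin (k + c * (y 0 + y 1 + y 2)) = (Complex.exp (k * Complex.I) *
      Complex.exp (-(1 / 2 : ℂ) * ‖y‖ ^ 2 + (c * Complex.I) * (inner ℝ (!₂[1, 1, 1] : F) y : ℝ))).im := by
    intro y
    rw [← Complex.exp_add, Complex.exp_im]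
    simp [g, PiLp.inner_apply, Fin.sum_univ_three, ← Complex.ofReal_pow, div_eq_inv_mul]
  have i := (GaussianFourier.integrable_cexp_neg_mul_sq_norm_add (b := 1 / 2) (by simp)
    (c * Complex.I) (!₂[1, 1, 1] : F)).const_mul (Complex.exp (k * Complex.I))
  simp_rw [e]
  refine ⟨i.im, (integral_im i).trans ?_⟩
  rw [integral_const_mul, GaussianFourier.integral_cexp_neg_mul_sq_norm_add (by simp)]
  have n : ((‖(!₂[1, 1, 1] : F)‖ : ℝ) : ℂ) ^ 2 = 3 := by
    rw [← Complex.ofReal_pow, EuclideanSpace.real_norm_sq_eq]; simp [Fin.sum_univ_three]; norm_num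
  have e1 : ((π : ℂ) / (1 / 2)) ^ ((Module.finrank ℝ F : ℂ) / 2) = (M : ℂ) := by
    rw [M, Complex.ofReal_cpow (by positivity)]; congr 1
    · push_cast; ring
    · simp
  have e2 : (c * Complex.I) ^ 2 * 3 / (4 * (1 / 2)) = ((-(3 * c ^ 2 / 2) : ℝ) : ℂ) := by
    rw [mul_pow, Complex.I_sq]; push_cast; ring
  rw [n, e1, e2, ← Complex.ofReal_exp, ← Complex.ofReal_mul]
  simp [-Complex.ofReal_mul, -Complex.ofReal_exp]

noncomputable def w (τ k : ℝ) (y : F) : ℝ :=
  exp (-k ^ 2 / 8) * (g y * (1 + τ ^ 2 * (8 * exp (3 * |k|))) - τ * k * (g y * σ k y))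

lemma R_bd (k : ℝ) : 7 * |k| + k ^ 2 * exp |k| ≤ 8 * exp (3 * |k|) := by
  have h1 : |k| ≤ exp |k| := by linarith [add_one_le_exp |k|]
  have h2 := one_le_exp (abs_nonneg k)
  have h3 : k ^ 2 ≤ exp |k| ^ 2 := by rw [← sq_abs]; gcongr
  have h4 : exp (3 * |k|) = exp |k| ^ 3 := by rw [← exp_nat_mul]; simp
  rw [h4]; nlinarith [mul_le_mul_of_nonneg_right h3 (exp_pos |k|).le, pow_le_pow_right₀ h2 (by norm_num : 1 ≤ 3)]

lemma w_nn {τ : ℝ} (h0 : 0 ≤ τ) (k : ℝ) (y : F) : 0 ≤ w τ k y := by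
  have h1 := R_bd k
  have h2 := one_le_exp (abs_nonneg k)
  have h3 : τ * k * σ k y ≤ τ * |k| := by
    rw [mul_assoc]; gcongr
    refine (le_abs_self _).trans ?_
    rw [abs_mul]; exact mul_le_of_le_one_right (abs_nonneg _) (abs_sin_le_one _)
  have h4 : |k| ^ 2 ≤ 8 * exp (3 * |k|) := by rw [sq_abs]; nlinarith [abs_nonneg k, sq_nonneg k]
  have h5 : 0 ≤ 1 + τ ^ 2 * (8 * exp (3 * |k|)) - τ * k * σ k y := by
    nlinarith [mul_le_mul_of_nonneg_left h4 (sq_nonneg τ), sq_nonneg (τ * |k| - 1), sq_nonneg (τ * |k|)]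
  have := mul_nonneg (exp_pos (-‖y‖ ^ 2 / 2)).le h5
  exact mul_nonneg (exp_pos _).le (by unfold g; linarith)

lemma w_int (τ k : ℝ) : Integrable (w τ k) ∧ ∫ y, w τ k y = exp (-k ^ 2 / 8) *
    (M * (1 + τ ^ 2 * (8 * exp (3 * |k|))) - τ * k * (sin (π * k / 2) * (M * exp (-(3 * π ^ 2 / 2))))) := by
  have a := gauss 0 (π / 2)
  have b := gauss π (π * k / 2)
  simp only [zero_mul, add_zero, sin_pi_div_two, mul_one, one_mul, ne_eq, OfNat.ofNat_ne_zero,
    not_false_eq_true, zero_pow, mul_zero, zero_div, neg_zero, exp_zero] at a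
  refine ⟨((a.1.mul_const _).sub (b.1.const_mul _)).const_mul _, ?_⟩
  unfold w σ
  rw [integral_const_mul, integral_sub (a.1.mul_const _) (b.1.const_mul _), integral_mul_const,
    integral_const_mul, a.2, b.2]

lemma ptw {τ : ℝ} (h0 : 0 ≤ τ) (h1 : τ ≤ 1) (k : ℝ) (x : E) (hx : h τ x = k) :
    exp (-‖x‖ ^ 2 / 2) ≤ w τ k (p x) := by
  set z := sin (2 * π * x 0) with hz
  have hs : ∑ i, x i = k + 4 * τ * z := by rw [← hx, h]; ring
  have z1 : |z| ≤ 1 := abs_sin_le_one _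
  have a1 : |z - σ k (p x)| ≤ 7 * τ := by
    refine (abs_sin_sub_sin_le _ _).trans ?_
    have : 2 * π * x 0 - (π * k / 2 + π * (p x 0 + p x 1 + p x 2)) = 2 * π * τ * z := by
      rw [Fin.sum_univ_four] at hs
      simp only [p, Matrix.cons_val, PiLp.toLp_apply]
      linear_combination π / 2 * hs
    rw [this, abs_mul, abs_of_nonneg (by positivity : 0 ≤ 2 * π * τ)]
    nlinarith [mul_le_mul_of_nonneg_left z1 (by positivity : 0 ≤ 2 * π * τ),
      mul_le_mul_of_nonneg_left pi_lt_d2.le h0]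
  have a2 : |-(k * τ * z)| ≤ τ * |k| := by
    rw [abs_neg, abs_mul, abs_mul, abs_of_nonneg h0, mul_comm τ]
    exact mul_le_of_le_one_right (by positivity) z1
  have a3 : (-(k * τ * z)) ^ 2 * exp |-(k * τ * z)| ≤ τ ^ 2 * (k ^ 2 * exp |k|) := by
    rw [← sq_abs, ← sq_abs k, ← mul_assoc, ← mul_pow]
    exact mul_le_mul (pow_le_pow_left₀ (abs_nonneg _) a2 2)
      (exp_le_exp.2 (a2.trans (mul_le_of_le_one_left (abs_nonneg _) h1))) (exp_pos _).le (sq_nonneg _)
  have a4 : -(k * τ * z) ≤ -(τ * k * σ k (p x)) + τ ^ 2 * (7 * |k|) := by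
    have : |k * (z - σ k (p x))| ≤ |k| * (7 * τ) := by rw [abs_mul]; gcongr
    nlinarith [mul_le_mul_of_nonneg_left (neg_le_of_abs_le this) h0]
  have a5 := exp_le (-(k * τ * z))
  have a6 := mul_le_mul_of_nonneg_left (R_bd k) (sq_nonneg τ)
  have a7 : exp (-‖x‖ ^ 2 / 2) ≤ exp (-k ^ 2 / 8) * (g (p x) * exp (-(k * τ * z))) := by
    rw [g, ← exp_add, ← exp_add, pyth, hs]
    exact exp_le_exp.2 (by nlinarith [sq_nonneg (τ * z)])
  refine a7.trans (mul_le_mul_of_nonneg_left ?_ (exp_pos _).le)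
  have : exp (-(k * τ * z)) ≤ 1 + τ ^ 2 * (8 * exp (3 * |k|)) - τ * k * σ k (p x) := by linarith
  have g0 : 0 ≤ g (p x) := (exp_pos _).le
  nlinarith [mul_le_mul_of_nonneg_left this g0]

lemma front' (τ : ℝ) : frontier (Om τ) = ⋃ k : ℤ, {x | h τ x = k} := by
  ext x
  simp only [front, mem_ofPred, mem_iUnion, sin_eq_zero_iff, mul_comm _ π,
    mul_right_inj' pi_ne_zero]
  simp only [eq_comm]

lemma w_meas (τ k c : ℝ) : Measurable fun y => ENNReal.ofReal (c * w τ k y) := by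
  unfold w g σ; fun_prop

lemma upper {τ : ℝ} (h0 : 0 ≤ τ) (h1 : τ ≤ 1 / 20) : area (Om τ) ≤ ∑' k : ℤ, ENNReal.ofReal
    ((1 + 160 * τ ^ 2) ^ 3 * ((2 * π) ^ (-(4 : ℝ) / 2) * ∫ y, w τ k y)) := by
  rw [area, front']
  refine (lintegral_iUnion_le _ _).trans (ENNReal.tsum_le_tsum fun k => ?_)
  have m : MeasurableSet {x | h τ x = k} :=
    (isClosed_eq (h_smooth τ).continuous continuous_const).measurableSet
  refine (setLIntegral_mono' m (g := fun x => ENNReal.ofReal ((2 * π) ^ (-(4 : ℝ) / 2) * w τ k (p x)))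
    fun x hx => ?_).trans ?_
  · exact ENNReal.ofReal_le_ofReal
      (mul_le_mul_of_nonneg_left (ptw h0 (by linarith) k x hx) (by positivity))
  rw [← lintegral_map (w_meas τ k _) p_cont.measurable]
  refine (lintegral_mono' (map_le _ ⟨1 + 160 * τ ^ 2, by positivity⟩ fun x hx y hy => ?_)
    le_rfl).trans (le_of_eq ?_)
  · have b1 := pyth (x - y)
    have b2 : ∑ i, (x - y) i = 4 * τ * (sin (2 * π * x 0) - sin (2 * π * y 0)) := by
      simp only [mem_ofPred, h] at hx hy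
      simp only [PiLp.sub_apply, Finset.sum_sub_distrib]; linarith
    have b3 : |sin (2 * π * x 0) - sin (2 * π * y 0)| ≤ 2 * π * ‖x - y‖ := by
      refine (abs_sin_sub_sin_le _ _).trans ?_
      rw [← mul_sub, abs_mul, abs_of_nonneg (by positivity : 0 ≤ 2 * π)]
      gcongr
      exact PiLp.norm_apply_le (x - y) 0
    have b4 := sq_le_sq' (neg_le_of_abs_le b3) (le_of_abs_le b3)
    have b5 : π ^ 2 ≤ 10 := by nlinarith [pi_lt_d2, pi_pos]
    rw [b2, p_sub] at b1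
    have b6 : ‖x - y‖ ^ 2 * (1 - 160 * τ ^ 2) ≤ ‖p x - p y‖ ^ 2 := by
      nlinarith [mul_le_mul_of_nonneg_left b4 (sq_nonneg τ),
        mul_le_mul_of_nonneg_left b5 (sq_nonneg (τ * ‖x - y‖))]
    refine (abs_le_of_sq_le_sq' ?_ (by positivity)).2
    show _ ≤ ((1 + 160 * τ ^ 2) * _) ^ 2
    generalize hu : 160 * τ ^ 2 = u at *
    have u0 : 0 ≤ u := by rw [← hu]; positivity
    have u1 : u ≤ 1 / 2 := by rw [← hu]; nlinarith
    have u2 : 1 ≤ (1 + u) ^ 2 * (1 - u) := by nlinarith [mul_nonneg u0 (by nlinarith : 0 ≤ 1 - u - u ^ 2)]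
    nlinarith [mul_le_mul_of_nonneg_left b6 (sq_nonneg (1 + u)),
      mul_le_mul_of_nonneg_left u2 (sq_nonneg ‖x - y‖)]
  · rw [lintegral_smul_measure, ← integral_const_mul, ENNReal.ofReal_mul (by positivity),
      ofReal_integral_eq_lintegral_ofReal ((w_int τ k).1.const_mul _)
        (.of_forall fun y => mul_nonneg (by positivity) (w_nn h0 k y)),
      ENNReal.ofReal_pow (by positivity), ENNReal.ofReal_eq_coe_nnreal (by positivity)]
    rfl

lemma lower : ∑' k : ℤ, ENNReal.ofReal ((2 * π) ^ (-(4 : ℝ) / 2) * ∫ y, w 0 k y) ≤ area (Om 0) := by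
  have m : ∀ k : ℤ, MeasurableSet {x | h 0 x = k} := fun k =>
    (isClosed_eq (h_smooth 0).continuous continuous_const).measurableSet
  rw [area, front', lintegral_iUnion m fun i j hij => disjoint_left.2 fun x h1 h2 =>
    hij (by exact_mod_cast (Eq.symm h1).trans h2)]
  refine ENNReal.tsum_le_tsum fun k => ?_
  rw [← integral_const_mul, ofReal_integral_eq_lintegral_ofReal ((w_int 0 k).1.const_mul _)
        (.of_forall fun y => mul_nonneg (by positivity) (w_nn le_rfl k y))]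
  refine (lintegral_mono' (le_map k) le_rfl).trans ?_
  rw [lintegral_map (w_meas 0 k _) p_cont.measurable]
  refine setLIntegral_mono' (m k) fun x hx => le_of_eq ?_
  have : ∑ i, x i = k := by simpa [h] using hx
  simp only [w, g, pyth x, this, ← exp_add, zero_mul, sub_zero, ne_eq, OfNat.ofNat_ne_zero,
    not_false_eq_true, zero_pow, add_zero, mul_one]
  congr 3; ring

lemma summ (f : ℤ → ℝ) (hf : ∀ k, |f k| ≤ 8 * exp (3 * |(k : ℝ)|)) :
    Summable fun k : ℤ => exp (-(k : ℝ) ^ 2 / 8) * f k := by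
  have s : Summable fun k : ℤ => exp (-|(k : ℝ)|) :=
    .of_nat_of_neg (by simpa using summable_exp_neg_nat) (by simpa using summable_exp_neg_nat)
  refine .of_norm_bounded (s.mul_left (8 * exp 32)) fun k => ?_
  rw [norm_mul, norm_eq_abs, norm_eq_abs, abs_of_pos (exp_pos _)]
  refine (mul_le_mul_of_nonneg_left (hf k) (exp_pos _).le).trans ?_
  rw [mul_left_comm, mul_assoc, ← exp_add, ← exp_add]
  exact mul_le_mul_of_nonneg_left (exp_le_exp.2
    (by nlinarith [sq_nonneg (|(k : ℝ)| - 16), sq_abs (k : ℝ)])) (by norm_num)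

lemma bd (k : ℝ) : |k * sin (π * k / 2)| ≤ |k| := by
  rw [abs_mul]; exact mul_le_of_le_one_right (abs_nonneg _) (abs_sin_le_one _)

lemma sumD : Summable fun k : ℤ => exp (-(k : ℝ) ^ 2 / 8) * (k * sin (π * k / 2)) :=
  summ _ fun k => (bd k).trans (by
    nlinarith [R_bd k, abs_nonneg (k : ℝ), mul_nonneg (sq_nonneg (k : ℝ)) (exp_pos |(k : ℝ)|).le])

lemma D_pos : 0 < ∑' k : ℤ, exp (-(k : ℝ) ^ 2 / 8) * (k * sin (π * k / 2)) := by
  obtain ⟨s1, s2⟩ := summable_int_iff_summable_nat_and_neg.1 sumD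
  rw [s1.tsum_of_nat_of_neg s2]
  simp only [Int.cast_neg, Int.cast_natCast, even_two, Even.neg_pow, mul_neg, neg_div, sin_neg,
    neg_mul, neg_neg, Int.cast_zero, zero_mul, mul_zero, sub_zero] at s1 ⊢
  suffices 0 < ∑' k : ℕ, exp (-((k : ℝ) ^ 2 / 8)) * (k * sin (π * k / 2)) by linarith
  rw [← s1.sum_add_tsum_nat_add 7]
  have E1 := exp_neg_one_gt_d9
  have E2 := exp_neg_one_lt_d9
  have t := (hasSum_geometric_of_lt_one (r := 1 / 2) (by norm_num) (by norm_num)).mul_left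
    (-(7 * exp (-1) ^ 6))
  have t2 := hasSum_le (fun j => ?_) t ((summable_nat_add_iff 7).2 s1).hasSum
  · have q : ∀ n : ℕ, exp (-((8 * n + 1) / 8)) = exp (-(1 / 8)) * exp (-1) ^ n := fun n => by
      rw [← exp_nat_mul, ← exp_add]; congr 1; ring
    have q0 : 7 / 8 ≤ exp (-(1 / 8) : ℝ) := by linarith [add_one_le_exp (-(1 / 8) : ℝ)]
    have q1 := q 1
    have q3 := q 3
    have c3 : sin (π * 3 / 2) = -1 := by
      rw [show π * 3 / 2 = π / 2 + π by ring, sin_add_pi, sin_pi_div_two]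
    have c5 : sin (π * 5 / 2) = 1 := by
      rw [show π * 5 / 2 = π / 2 + 2 * π by ring, sin_add_two_pi, sin_pi_div_two]
    have c2 : sin (π * 2 / 2) = 0 := by simp
    have c4 : sin (π * 4 / 2) = 0 := by rw [show π * 4 / 2 = 2 * π by ring, sin_two_pi]
    have c6 : sin (π * 6 / 2) = 0 := by
      rw [show π * 6 / 2 = π + 2 * π by ring, sin_add_two_pi, sin_pi]
    simp only [Finset.sum_range_succ, Finset.sum_range_zero, Nat.cast_ofNat, Nat.cast_one,
      Nat.cast_zero, c2, c3, c4, c5, c6, mul_one, sin_pi_div_two]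
    norm_num at q1 q3 t2 ⊢
    rw [q1, q3]
    have E3 : 0.0497 ≤ exp (-1) ^ 3 := le_trans (by norm_num) (pow_le_pow_left₀ (by norm_num) E1.le 3)
    have E6 : exp (-1) ^ 6 ≤ 0.0025 := (pow_le_pow_left₀ (exp_pos _).le E2.le 6).trans (by norm_num)
    nlinarith
  · refine le_trans ?_ (mul_le_mul_of_nonneg_left (neg_le_of_abs_le (bd _)) (exp_pos _).le)
    rw [Nat.abs_cast, neg_mul, mul_neg, neg_le_neg_iff]
    have a1 : exp (-(((j + 7 : ℕ) : ℝ) ^ 2 / 8)) ≤ exp (-1) ^ 6 * (exp (-1) ^ j * exp (-(j / 7))) := by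
      rw [← exp_nat_mul, ← exp_nat_mul, ← exp_add, ← exp_add]
      push_cast
      exact exp_le_exp.2 (by nlinarith [Nat.cast_nonneg (α := ℝ) j])
    have a2 : exp (-(j / 7 : ℝ)) * (j + 7 : ℕ) ≤ 7 := by
      have := mul_le_mul_of_nonneg_left (add_one_le_exp (j / 7 : ℝ)) (exp_pos (-(j / 7 : ℝ))).le
      rw [← exp_add, neg_add_cancel, exp_zero] at this
      push_cast; linarith
    have a3 : exp (-1) ^ j ≤ (1 / 2) ^ j := pow_le_pow_left₀ (exp_pos _).le (by linarith) j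
    calc _ ≤ exp (-1) ^ 6 * (exp (-1) ^ j * exp (-(j / 7))) * (j + 7 : ℕ) := by gcongr
      _ = exp (-1) ^ 6 * exp (-1) ^ j * (exp (-(j / 7 : ℝ)) * (j + 7 : ℕ)) := by ring
      _ ≤ exp (-1) ^ 6 * (1 / 2) ^ j * 7 := by gcongr
      _ = _ := by ring

theorem result : Periodic {x | 0 ≤ sin (π * ∑ i, x i)} ∧ ∃ Ω : Set E, Periodic Ω ∧
    SmoothBoundary Ω ∧ area Ω < area {x | 0 ≤ sin (π * ∑ i, x i)} := by
  have hB : {x : E | 0 ≤ sin (π * ∑ i, x i)} = Om 0 := by simp [Om, h]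
  rw [hB]
  refine ⟨per 0, ?_⟩
  have sA := summ (fun _ => 1) fun k => by
    linarith [one_le_exp (by positivity : 0 ≤ 3 * |(k : ℝ)|), abs_one (α := ℝ)]
  have sR := summ (fun k => 8 * exp (3 * |(k : ℝ)|)) fun k => (abs_of_pos (by positivity)).le
  have hD := D_pos
  have hs : ∀ τ : ℝ, HasSum (fun k : ℤ => ∫ y, w τ k y) _ := fun τ =>
    (((sA.hasSum.mul_left M).add (sR.hasSum.mul_left (τ ^ 2 * M))).sub
      (sumD.hasSum.mul_left (τ * (M * exp (-(3 * π ^ 2 / 2)))))).congr_fun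
      fun k => by rw [(w_int τ k).2]; ring
  generalize (∑' k : ℤ, exp (-(k : ℝ) ^ 2 / 8) * (k * sin (π * k / 2))) = D at *
  have hA : 0 < ∑' k : ℤ, exp (-(k : ℝ) ^ 2 / 8) * 1 := sA.tsum_pos (fun _ => by positivity) 0 (by positivity)
  generalize (∑' k : ℤ, exp (-(k : ℝ) ^ 2 / 8) * 1) = A at *
  generalize (∑' k : ℤ, exp (-(k : ℝ) ^ 2 / 8) * (8 * exp (3 * |(k : ℝ)|))) = R at *
  have hM : 0 < M := by unfold M; positivity
  have hC : 0 < M * exp (-(3 * π ^ 2 / 2)) := by positivity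
  generalize M * exp (-(3 * π ^ 2 / 2)) = C at *
  have ev := (show Continuous fun τ : ℝ => τ * M * R - C * D + 160 * τ *
    (3 + 3 * (160 * τ ^ 2) + (160 * τ ^ 2) ^ 2) * (M * A + τ ^ 2 * M * R - τ * C * D) by
      fun_prop).continuousAt.eventually_lt (continuousAt_const (y := 0)) (x₀ := 0)
      (by simpa using mul_pos hC hD)
  obtain ⟨τ, ⟨h1, h2⟩, h3⟩ := (((ev.and (eventually_lt_nhds (by norm_num : (0 : ℝ) < 1 / 20))).filter_mono
    nhdsWithin_le_nhds).and (self_mem_nhdsWithin (s := Ioi 0))).exists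
  have h3 : 0 < τ := h3
  have nn : ∀ τ : ℝ, 0 ≤ τ → ∀ k : ℤ, 0 ≤ (2 * π) ^ (-(4 : ℝ) / 2) * ∫ y, w τ k y := fun τ h k =>
    mul_nonneg (by positivity) (integral_nonneg (w_nn h k))
  refine ⟨Om τ, per τ, smooth τ, (upper h3.le h2.le).trans_lt (lt_of_lt_of_le ?_ lower)⟩
  rw [← ENNReal.ofReal_tsum_of_nonneg (nn 0 le_rfl) ((hs 0).mul_left _).summable,
    ← ENNReal.ofReal_tsum_of_nonneg (fun k => mul_nonneg (by positivity) (nn τ h3.le k))
      (((hs τ).mul_left _).mul_left _).summable, (((hs τ).mul_left _).mul_left _).tsum_eq,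
    ((hs 0).mul_left _).tsum_eq, ENNReal.ofReal_lt_ofReal_iff (by simp; positivity), mul_left_comm]
  refine mul_lt_mul_of_pos_left ?_ (by positivity)
  nlinarith [mul_neg_of_pos_of_neg h3 h1]

end Pool.Agent.Results.MP_b76267_pr.Counter
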